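import Mathlib

set_option autoImplicit false

namespace Pool.Agent.Results.MP_cb51c9_co.Greedy

open Finset

def Free (S : Set ℕ) : Prop :=
  ∀ w ∈ S, ∀ x ∈ S, ∀ y ∈ S, ∀ z ∈ S, 5 * w + 2 * x = 5 * y + 2 * z → (w, x) = (y, z)

/-- `{g_0, …, g_i}`. -/
noncomputable def init : ℕ → Set ℕ
  | 0 => {0}
  | i + 1 => insert (sInf {g | (∀ y ∈ init i, y < g) ∧ Free (insert g (init i))}) (init i)

def G : Set ℕ := ⋃ i, init i

/-- `a_0 = 0`, `a_i = ⌊(c + 7 ∑_{j<i} a_j) / 2⌋`. -/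
def a (c : ℕ) : ℕ → ℕ
  | 0 => 0
  | i + 1 => (c + 7 * ∑ j : Fin (i + 1), a c j) / 2
decreasing_by exact j.2

def T (c : ℕ) : Set ℕ := {n | ∃ s : Finset ℕ, ∃ y ≤ 4, n = 5 * ∑ i ∈ s, a c i + y}

def s (i : ℕ) : ℕ := ∑ j ∈ range i, a 6 j

def In (i x : ℕ) : Prop := ∃ t ⊆ range i, ∑ j ∈ t, a 6 j = x

lemma ab (i : ℕ) : 7 * s (i + 1) + 5 ≤ 2 * a 6 (i + 1) ∧ 2 * a 6 (i + 1) ≤ 7 * s (i + 1) + 6 := by
  rw [a, s, sum_range]; omega

lemma ss (i : ℕ) : s (i + 1) = s i + a 6 i := sum_range_succ _ _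

lemma s1 : s (0 + 1) = 0 := by simp [s, a]

lemma le {i x : ℕ} (h : In i x) : x ≤ s i := by
  obtain ⟨t, h, rfl⟩ := h; exact sum_le_sum_of_subset h

lemma mono {i j x : ℕ} (h : In i x) (k : i ≤ j) : In j x := by
  obtain ⟨t, h, e⟩ := h; exact ⟨t, h.trans (range_mono k), e⟩

lemma up {i x : ℕ} (h : In i x) : In (i + 1) (x + a 6 i) := by
  obtain ⟨t, h, rfl⟩ := h
  exact ⟨insert i t, by rw [range_add_one]; exact insert_subset_insert _ h,
    by rw [sum_insert fun k => by simpa using h k, add_comm]⟩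

lemma dn {i x : ℕ} (h : In (i + 1) x) : ∃ y, In i y ∧ (x = y ∨ x = y + a 6 i) := by
  obtain ⟨t, h, rfl⟩ := h
  refine ⟨_, ⟨t.erase i, fun j hj => ?_, rfl⟩, ?_⟩
  · have := h (mem_of_mem_erase hj); have := ne_of_mem_erase hj; simp at *; omega
  · by_cases k : i ∈ t
    · exact .inr (sum_erase_add _ _ k).symm
    · rw [erase_eq_of_notMem k]; exact .inl rfl

lemma free (i : ℕ) : ∀ p q u v, In (i + 1) p → In (i + 1) q → In (i + 1) u → In (i + 1) v →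
    2 * p + 5 * u ≤ 2 * q + 5 * v + 4 → 2 * q + 5 * v ≤ 2 * p + 5 * u + 4 → p = q := by
  induction i with
  | zero => intro p q u v h k _ _ _ _; have := le h; have := le k; have := s1; omega
  | succ i ih =>
    intro p q u v h1 h2 h3 h4 _ _
    obtain ⟨p, k1, e1⟩ := dn h1
    obtain ⟨q, k2, e2⟩ := dn h2
    obtain ⟨u, k3, e3⟩ := dn h3
    obtain ⟨v, k4, e4⟩ := dn h4
    have := ih p q u v k1 k2 k3 k4
    have := le k1; have := le k2; have := le k3; have := le k4; have := ab i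
    omega

lemma cover (i : ℕ) : ∀ z : ℤ, -5 * (s (i + 1) : ℤ) - 4 ≤ z → z ≤ 7 * s (i + 1) + 4 →
    ∃ p u v : ℕ, In (i + 1) p ∧ In (i + 1) u ∧ In (i + 1) v ∧
      z ≤ 2 * p + 5 * u - 5 * v + 4 ∧ 2 * p + 5 * u - 5 * v ≤ z + 4 := by
  induction i with
  | zero =>
    intro z h k; have := s1; have o : In 1 0 := ⟨∅, by simp, rfl⟩
    exact ⟨0, 0, 0, o, o, o, by omega, by omega⟩
  | succ i ih =>
    intro z h k
    have := ab i; have := ss (i + 1)
    have m : ∀ {x}, In (i + 1) x → In (i + 2) x := fun h => mono h (by omega)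
    have : ∃ c : ℤ, (c = -5 ∨ c = -3 ∨ c = 0 ∨ c = 2 ∨ c = 5 ∨ c = 7) ∧
        -5 * (s (i + 1) : ℤ) - 4 ≤ z - c * a 6 (i + 1) ∧ z - c * a 6 (i + 1) ≤ 7 * s (i + 1) + 4 := by
      simp only [or_and_right, exists_or, exists_eq_left]; omega
    obtain ⟨c, hc, l, r⟩ := this
    obtain ⟨p, u, v, hp, hu, hv, _, _⟩ := ih _ l r
    rcases hc with rfl | rfl | rfl | rfl | rfl | rfl
    · exact ⟨_, _, _, m hp, m hu, up hv, by omega, by omega⟩
    · exact ⟨_, _, _, up hp, m hu, up hv, by omega, by omega⟩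
    · exact ⟨_, _, _, m hp, m hu, m hv, by omega, by omega⟩
    · exact ⟨_, _, _, up hp, m hu, m hv, by omega, by omega⟩
    · exact ⟨_, _, _, m hp, up hu, m hv, by omega, by omega⟩
    · exact ⟨_, _, _, up hp, up hu, m hv, by omega, by omega⟩

lemma excl (i : ℕ) : ∀ q < a 6 (i + 1), ¬ In (i + 1) q → ∃ p < q, ∃ u < q, ∃ v < q,
    In (i + 1) p ∧ In (i + 1) u ∧ In (i + 1) v ∧
      2 * q + 5 * v ≤ 2 * p + 5 * u + 4 ∧ 2 * p + 5 * u ≤ 2 * q + 5 * v + 4 := by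
  have big : ∀ i, ∀ q < a 6 (i + 1), s (i + 1) < q → ∃ p < q, ∃ u < q, ∃ v < q,
      In (i + 1) p ∧ In (i + 1) u ∧ In (i + 1) v ∧
      2 * q + 5 * v ≤ 2 * p + 5 * u + 4 ∧ 2 * p + 5 * u ≤ 2 * q + 5 * v + 4 := fun i q h k => by
    have := ab i
    obtain ⟨p, u, v, hp, hu, hv, _, _⟩ := cover i (2 * q) (by omega) (by omega)
    have := le hp; have := le hu; have := le hv
    exact ⟨p, by omega, u, by omega, v, by omega, hp, hu, hv, by omega, by omega⟩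
  induction i with
  | zero =>
    intro q h k
    exact big 0 q h (by rw [s1]; exact Nat.pos_of_ne_zero fun e => k ⟨∅, by simp, e.symm⟩)
  | succ i ih =>
    intro q h k
    have m : ∀ {x}, In (i + 1) x → In (i + 2) x := fun h => mono h (by omega)
    have := ab i; have := ss (i + 1)
    by_cases c : s (i + 1 + 1) < q
    · exact big _ q h c
    by_cases d : q < a 6 (i + 1)
    · obtain ⟨p, _, u, _, v, _, hp, hu, hv, e⟩ := ih q d fun j => k (m j)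
      exact ⟨p, ‹_›, u, ‹_›, v, ‹_›, m hp, m hu, m hv, e⟩
    · obtain ⟨r, rfl⟩ : ∃ r, q = r + a 6 (i + 1) := ⟨q - a 6 (i + 1), by omega⟩
      obtain ⟨p, _, u, _, v, _, hp, hu, hv, e⟩ := ih r (by omega) fun j => k (up j)
      exact ⟨_, by omega, u, by omega, v, by omega, up hp, m hu, m hv, by omega⟩

lemma grow (i : ℕ) : i < a 6 (i + 1) := by
  have : i ≤ s (i + 1) := by
    induction i with
    | zero => omega
    | succ i ih => have := ab i; have := ss (i + 1); omega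
  have := ab i; omega

lemma memT {n : ℕ} : n ∈ T 6 ↔ ∃ i, In (i + 1) (n / 5) :=
  ⟨fun ⟨t, y, h, e⟩ => ⟨t.sup id, t, fun j hj => mem_range.2 (Nat.lt_succ_of_le (le_sup (f := id) hj)),
    by omega⟩, fun ⟨_, t, _, e⟩ => ⟨t, n % 5, by omega, by omega⟩⟩

lemma freeT : Free (T 6) := fun w hw x hx y hy z hz e => by
  obtain ⟨i, hi⟩ := memT.1 hw
  obtain ⟨j, hj⟩ := memT.1 hx
  obtain ⟨k, hk⟩ := memT.1 hy
  obtain ⟨l, hl⟩ := memT.1 hz
  have := free (i + j + k + l) _ _ _ _ (mono hl (by omega)) (mono hj (by omega))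
    (mono hk (by omega)) (mono hi (by omega)) (by omega) (by omega)
  rw [Prod.mk.injEq]; omega

lemma step (i : ℕ) : ∃ m, i ≤ m ∧ m ∈ T 6 ∧ init i = {n ∈ T 6 | n ≤ m} := by
  induction i with
  | zero =>
    have o : 0 ∈ T 6 := ⟨∅, 0, by simp, by simp⟩
    exact ⟨0, le_rfl, o, Set.ext fun n => ⟨fun e : n = 0 => ⟨e ▸ o, e.le⟩, fun h => Nat.le_zero.1 h.2⟩⟩
  | succ i ih =>
    obtain ⟨m, h, hm, e⟩ := ih
    have ex : ∃ n, n ∈ T 6 ∧ m < n := ⟨5 * a 6 (m + 1), ⟨{m + 1}, 0, by simp, by simp⟩,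
      by have := grow m; omega⟩
    classical
    have sp := Nat.find_spec ex
    have mn : ∀ n ∈ T 6, n < Nat.find ex → n ≤ m := fun n h k => not_lt.1 fun j => Nat.find_min ex k ⟨h, j⟩
    generalize Nat.find ex = x at sp mn
    have : IsLeast {g | (∀ y ∈ init i, y < g) ∧ Free (insert g (init i))} x := by
      rw [e]
      refine ⟨⟨fun y hy => hy.2.trans_lt sp.2, fun w hw x hx y hy z hz => ?_⟩, fun g ⟨g1, g2⟩ => ?_⟩
      · have : ∀ w ∈ insert _ {n ∈ T 6 | n ≤ m}, w ∈ T 6 :=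
          Set.insert_subset sp.1 fun _ h => h.1
        exact freeT w (this w hw) x (this x hx) y (this y hy) z (this z hz)
      by_contra! c
      have gm := g1 m ⟨hm, le_rfl⟩
      obtain ⟨p, _, u, _, v, _, hp, hu, hv, _, _⟩ := excl g (g / 5) (by have := grow g; omega)
        fun k => (mn g (memT.2 ⟨_, k⟩) c).not_gt gm
      have k : ∀ n q, In (g + 1) q → q < g / 5 → n / 5 = q → n ∈ insert g {n ∈ T 6 | n ≤ m} :=
        fun n q h _ _ => have t := memT.2 ⟨g, by rwa [‹n / 5 = q›]⟩; .inr ⟨t, mn n t (by omega)⟩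
      have := g2 (5 * u + (2 * (g / 5) + 5 * v - (2 * p + 5 * u))) (k _ u hu ‹_› (by omega))
        (5 * p + g % 5) (k _ p hp ‹_› (by omega))
        (5 * v + (2 * p + 5 * u - (2 * (g / 5) + 5 * v))) (k _ v hv ‹_› (by omega)) g (.inl rfl)
        (by omega)
      rw [Prod.mk.injEq] at this; omega
    refine ⟨x, by omega, sp.1, ?_⟩
    rw [init, this.csInf_eq, e]
    ext n
    refine ⟨?_, fun ⟨h, k⟩ => k.eq_or_lt.imp id fun k => ⟨h, mn n h k⟩⟩
    rintro (rfl | ⟨h, k⟩)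
    exacts [⟨sp.1, le_rfl⟩, ⟨h, by omega⟩]

theorem result : G = T 6 ∧ G ≠ T 5 := by
  have : G = T 6 := by
    ext n
    simp only [G, Set.mem_iUnion]
    refine ⟨fun ⟨i, h⟩ => ?_, fun h => ⟨n, ?_⟩⟩
    · obtain ⟨m, -, -, e⟩ := step i; exact (e ▸ h).1
    · obtain ⟨m, k, -, e⟩ := step n; exact e ▸ ⟨h, k⟩
  refine ⟨this, fun e => ?_⟩
  have f := this.symm.trans e ▸ freeT
  have o : ∀ y ≤ 4, y ∈ T 5 := fun y h => ⟨∅, y, h, by simp⟩
  exact absurd (f 4 (o 4 le_rfl) 0 (o 0 (by simp)) 0 (o 0 (by simp)) 10 ⟨{1}, 0, by simp, by simp [a]⟩ rfl)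
    (by simp)

end Pool.Agent.Results.MP_cb51c9_co.Greedy
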